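import Pool.Agent.MWGN.StmtsB

/-!
# Squad MWGN, row SPV: the special order is kept by the congruence (helper16)
-/

set_option autoImplicit false

namespace Pool.Agent.MWGN.H16

open Pool.Agent.Helper14_MV Pool.Agent.Helper2_MV
open Pool.Agent.MWK (pre Gw)

/-- **SPV** -/
theorem spv (noa : NoaStmt) (nob : NobStmt) (ren : RenStmt) (dst : DstStmt) (wcv : WcvStmt)
    (kar : KarStmt) (kpr : KprStmt) : SpvStmt := by
  intro β hG ν τ m nc hN hT h1 h2 hK w w' hw hC hWT hxy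
  have hP0 : ¬ P0 β := fun h => hK (kpr β hG h m τ hT)
  have hA0 : ¬ A0 β := fun h => hK (kar β hG h m τ hT)
  have hE0 : ¬ E0 β := fun h => hA0 (RR.append h (RR.refl [2, 1]))
  obtain ⟨c1, c2⟩ := wcv β hG.gw hE0 hP0 hA0 ν τ m nc hN h2 w w' hw
  have hC' := c1 hC
  have hT' := c2 hWT
  obtain ⟨i, j, e, f, hi, hj, he, hf, P, hP, eq⟩ := noa ν τ m nc hN hT h1 w hC hWT
  obtain ⟨i', j', e', f', hi', hj', he', hf', P', hP', eq'⟩ := noa ν τ m nc hN hT h1 w' hC' hT'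
  rcases hP' with ⟨h3, -⟩ | ⟨-, hP'⟩
  · exact h3
  exfalso
  have hPe : P = [ν.x, ν.y] := by
    rcases hP with ⟨-, h⟩ | ⟨h, -⟩
    · exact h
    · omega
  have hf1 := RR.filter (fun c => decide (c ∈ nl ν m)) hw
  rw [eq, eq', hPe, hP'] at hf1
  have n1 := nob β hG.gw ν τ m hT i j e f hi hj he hf [ν.x, ν.y] (by simp) (by simp)
  have n2 := nob β hG.gw ν τ m hT i' j' e' f' hi' hj' he' hf' [ν.y, ν.x] (by simp) (by simp)
  have key : RR β ([ν.x, ν.y] ++ krl ν τ m) ([ν.y, ν.x] ++ krl ν τ m) :=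
    β.trans n1.symm (β.trans hf1 n2)
  exact hK (ren β ν τ m hT (dst ν τ m nc hN hT h1 w hC hWT) key)

end Pool.Agent.MWGN.H16
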