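import Pool.Agent.MWGN.StmtsC

/-!
# Squad MWGN, row STX: insertion of the doubled word keeps `Ky` (helper16)
-/

set_option autoImplicit false

namespace Pool.Agent.MWGN.H16

open Pool.Agent.Helper14_MV Pool.Agent.Helper2_MV
open Pool.Agent.MWK (pre Gw)

/-- **STX** -/
theorem stx (kfi : KfiStmt) (mpf : MpfStmt) (mcf : McfStmt) (ord : OrdStmt) : StxStmt := by
  intro τ r hr ξ η A M N R u v k g h hI hu hv hM2 hMg h0 hη hg hh hK
  obtain ⟨hKF, hEq⟩ := hK
  obtain ⟨kf, -, -⟩ := kfi τ r ξ A M N R k hI u v hu hv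
  refine ⟨kf.1 hKF, ?_⟩
  by_contra hne
  obtain ⟨o1, o2, o3, o4⟩ := ord τ r u hKF
  obtain ⟨m1, m2, m3⟩ := mpf ξ A M N R k hI u v hu hv hM2 1 (NF.L 1) (NF.L (r + 2)) 2 hKF.sb
    hKF.yb (hKF.lb 1 (by omega)) (hKF.lb (r + 2) (le_refl _)) (o4 1 (r + 2) (by omega) (le_refl _))
    hEq hne
  have hL : ∀ i, 1 ≤ i → i ≤ r + 2 → NF.L i ∉ A ∧ NF.L i ∉ ξ ∧ M.count (NF.L i) = 1 ∧
      pre u (NF.L i) = A ++ ((ξ ++ ξ) ++ pre M (NF.L i)) := by
    intro i h1 h2
    refine m3 (NF.L i) ?_ ?_ (hKF.lb i h2)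
    · rcases Nat.eq_or_lt_of_le h1 with h3 | h3
      · left
        rw [h3]
      · right
        exact o4 1 i h3 h2
    · rcases Nat.eq_or_lt_of_le h2 with h3 | h3
      · left
        rw [h3]
      · right
        exact o4 i (r + 2) h3 (le_refl _)
  have hmc := (mcf (r + 2) (A ++ (ξ ++ ξ)) M ((ξ ++ ξ) ++ R) u (fun i => NF.L (i + 1))
    (fun j => if j < r then NF.C (j + 1) else 0) g h 2 (by rw [hu]; simp [List.append_assoc]) hMg
    hKF.sb (List.mem_append_right _ m2) (by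
      intro i hi
      obtain ⟨a1, a2, a3, -⟩ := hL (i + 1) (by omega) (by omega)
      refine ⟨?_, a3, hKF.lb (i + 1) (by omega)⟩
      show NF.L (i + 1) ∉ A ++ (ξ ++ ξ)
      rw [List.mem_append, List.mem_append]
      tauto) (by
      intro j hj
      show nn u (if j < r then NF.C (j + 1) else 0) (NF.L (j + 1)) <
        nn u (if j < r then NF.C (j + 1) else 0) (NF.L (j + 1 + 1)) ∧
        nn u (if j < r then NF.C (j + 1) else 0) 2 = u.count (if j < r then NF.C (j + 1) else 0)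
      by_cases hjr : j < r
      · rw [if_pos hjr]
        exact ⟨o2 (j + 1) (by omega) (by omega), hKF.cb (j + 1) (by omega) (by omega)⟩
      · rw [if_neg hjr]
        have : j = r := by omega
        rw [this]
        exact ⟨o3, hKF.xb⟩) (by
      intro i hi
      obtain ⟨R1, R2, hR⟩ := hg i hi
      exact ⟨(ξ ++ ξ) ++ R1, R2, by rw [hR]; simp [List.append_assoc]⟩) hh).2 0 (by omega)
  have hC1 : NF.C 1 ∈ η ++ η := by
    have h1 : (if 0 < r then NF.C (0 + 1) else 0) ∈ h 0 := hmc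
    rw [if_pos (show 0 < r from hr), h0] at h1
    exact h1
  have hC1' : NF.C 1 ∈ R := hη _ (by rw [List.mem_append] at hC1; tauto)
  have h1 := hKF.cl1 1 (le_refl _) hr 2 (by omega) (by omega)
  obtain ⟨-, -, -, h2⟩ := hL 2 (by omega) (by omega)
  unfold nn at h1
  rw [h2, hu] at h1
  simp only [List.count_append] at h1
  have h3 := MWK.count_pre_le M (NF.C 1) (NF.L 2)
  have h4 : 0 < R.count (NF.C 1) := List.count_pos_iff.2 hC1'
  omega

end Pool.Agent.MWGN.H16
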